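import Mathlib

/-!
# A symmetric ideal whose Hilbert function is not that of a symmetric binomial ideal

Let `k` be a field of characteristic zero.  The homogeneous symmetric ideal `I` of
`k[x_1, x_2, x_3, x_4]` generated by the orbit of `(x_1 - x_2)(x_3 - x_4)` has no minimal generating
set containing a `k`-symmetric polynomial, and its Hilbert function differs from the Hilbert
function of every symmetric ideal generated by monomials and binomials.
-/

set_option autoImplicit false

open MvPolynomial

namespace Pool.Agent.Results.MP_f9b6b5_al.FourVariables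

section defs

variable {k : Type*} [Field k] {n : ℕ}

/-- The ideal `J` is homogeneous. -/
def IsHomogeneousIdeal (J : Ideal (MvPolynomial (Fin n) k)) : Prop :=
  ∀ f ∈ J, ∀ d, homogeneousComponent d f ∈ J

/-- The ideal `J` is symmetric: stable under all permutations of the variables. -/
def IsSymmetricIdeal (J : Ideal (MvPolynomial (Fin n) k)) : Prop :=
  ∀ σ : Equiv.Perm (Fin n), ∀ f ∈ J, rename σ f ∈ J

/-- `f` is `k`-symmetric: it is not zero and invariant up to scalars. -/
def IsKSymmetric (f : MvPolynomial (Fin n) k) : Prop :=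
  f ≠ 0 ∧ ∀ σ : Equiv.Perm (Fin n), ∃ c : k, rename σ f = C c * f

/-- The principal symmetric ideal generated by the orbit of `f`. -/
noncomputable def principalSymmetric (f : MvPolynomial (Fin n) k) : Ideal (MvPolynomial (Fin n) k) :=
  Ideal.span (Set.range fun σ : Equiv.Perm (Fin n) => rename σ f)

/-- `S` is a minimal generating set of the homogeneous ideal `I`: it consists of homogeneous
polynomials, generates `I`, and no proper subset of `S` generates `I`. -/
def IsMinimalGenerating (S : Set (MvPolynomial (Fin n) k)) (I : Ideal (MvPolynomial (Fin n) k)) :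
    Prop :=
  (∀ f ∈ S, ∃ d, f.IsHomogeneous d) ∧ Ideal.span S = I ∧
    ∀ T : Set (MvPolynomial (Fin n) k), T ⊂ S → Ideal.span T ≠ I

/-- `f` is a term `a m` or a binomial `a m + b m'` (`a, b ≠ 0`, `m ≠ m'` monomials); the case
`b = 0` is the case of a term. -/
def IsTermOrBinomial (f : MvPolynomial (Fin n) k) : Prop :=
  ∃ (u v : Fin n →₀ ℕ) (a b : k), u ≠ v ∧ a ≠ 0 ∧ f = monomial u a + monomial v b

/-- The Hilbert function `d ↦ dim_k (R / J)_d` of a homogeneous ideal: the dimension of the image of
the space of forms of degree `d` in `R / J`. -/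
noncomputable def hilbert (J : Ideal (MvPolynomial (Fin n) k)) (d : ℕ) : ℕ :=
  Module.finrank k
    ((homogeneousSubmodule (Fin n) k d).map (Ideal.Quotient.mkₐ k J).toLinearMap)

end defs

section general

variable {k : Type*} [Field k] {n : ℕ}

/-- The degree `d` part of the ideal. -/
noncomputable def part (J : Ideal (MvPolynomial (Fin n) k)) (d : ℕ) :
    Submodule k (MvPolynomial (Fin n) k) :=
  J.restrictScalars k ⊓ homogeneousSubmodule (Fin n) k d

lemma finite_hom (d : ℕ) : Module.Finite k (homogeneousSubmodule (Fin n) k d) :=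
  Module.Finite.iff_fg.2 (homogeneousSubmodule_fg (Fin n) k d)

lemma part_finite (J : Ideal (MvPolynomial (Fin n) k)) (d : ℕ) : Module.Finite k (part J d) := by
  have := finite_hom (k := k) (n := n) d
  exact Submodule.finiteDimensional_of_le (inf_le_right :
    part J d ≤ homogeneousSubmodule (Fin n) k d)

lemma hilbert_add (J : Ideal (MvPolynomial (Fin n) k)) (d : ℕ) :
    hilbert J d + Module.finrank k (part J d) =
      Module.finrank k (homogeneousSubmodule (Fin n) k d) := by
  have := finite_hom (k := k) (n := n) d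
  set f : homogeneousSubmodule (Fin n) k d →ₗ[k] (MvPolynomial (Fin n) k ⧸ J) :=
    (Ideal.Quotient.mkₐ k J).toLinearMap.domRestrict (homogeneousSubmodule (Fin n) k d) with hf
  have h1 := f.finrank_range_add_finrank_ker
  have h2 : LinearMap.range f =
      (homogeneousSubmodule (Fin n) k d).map (Ideal.Quotient.mkₐ k J).toLinearMap :=
    LinearMap.range_domRestrict _ _
  have h3 : Module.finrank k (LinearMap.ker f) = Module.finrank k (part J d) := by
    have h4 : (LinearMap.ker f).map (homogeneousSubmodule (Fin n) k d).subtype = part J d := by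
      ext x
      constructor
      · rintro ⟨⟨y, hy⟩, hy2, rfl⟩
        refine ⟨?_, hy⟩
        exact Ideal.Quotient.eq_zero_iff_mem.1 (LinearMap.mem_ker.1 hy2)
      · rintro ⟨hx1, hx2⟩
        refine ⟨⟨x, hx2⟩, ?_, rfl⟩
        exact LinearMap.mem_ker.2 (Ideal.Quotient.eq_zero_iff_mem.2 hx1)
    rw [← h4]
    exact (LinearEquiv.finrank_eq (Submodule.equivMapOfInjective _
      (Submodule.injective_subtype _) _))
  rw [hilbert, ← h2, ← h3]
  exact h1

lemma finrank_part_eq {J I : Ideal (MvPolynomial (Fin n) k)} {d : ℕ}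
    (h : hilbert J d = hilbert I d) :
    Module.finrank k (part J d) = Module.finrank k (part I d) := by
  have h1 := hilbert_add J d
  have h2 := hilbert_add I d
  omega

/-- All coefficients in degree `< 2` vanish. -/
def Low (f : MvPolynomial (Fin n) k) : Prop := ∀ e : Fin n →₀ ℕ, e.degree < 2 → coeff e f = 0

lemma low_mul {f : MvPolynomial (Fin n) k} (hf : Low f) (r : MvPolynomial (Fin n) k)
    (e : Fin n →₀ ℕ) (he : e.degree ≤ 2) : coeff e (r * f) = coeff 0 r * coeff e f := by
  classical
  rw [coeff_mul]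
  rw [Finset.sum_eq_single (0, e)]
  · rintro ⟨a, b⟩ hab hne
    rw [Finset.HasAntidiagonal.mem_antidiagonal] at hab
    simp only at hab
    have hb : b.degree < 2 := by
      have h1 : a.degree + b.degree = e.degree := by rw [← hab, map_add]
      have h2 : a.degree ≠ 0 := by
        intro h
        rw [Finsupp.degree_eq_zero_iff] at h
        apply hne
        rw [h] at hab ⊢
        rw [zero_add] at hab
        rw [hab]
      omega
    rw [hf b hb, mul_zero]
  · intro h
    exact absurd (Finset.HasAntidiagonal.mem_antidiagonal.2 (zero_add e)) h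

lemma comp_mul {f : MvPolynomial (Fin n) k} (hf : Low f) (r : MvPolynomial (Fin n) k) :
    homogeneousComponent 2 (r * f) = coeff 0 r • homogeneousComponent 2 f := by
  ext e
  rw [coeff_homogeneousComponent, coeff_smul, coeff_homogeneousComponent]
  split_ifs with h
  · rw [low_mul hf r e h.le]; rfl
  · rw [smul_zero]

lemma span_low {G : Set (MvPolynomial (Fin n) k)} (hG : ∀ g ∈ G, Low g)
    {f : MvPolynomial (Fin n) k} (hf : f ∈ Ideal.span G) :
    Low f ∧ homogeneousComponent 2 f ∈ Submodule.span k (homogeneousComponent 2 '' G) := by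
  induction hf using Submodule.span_induction with
  | mem x hx => exact ⟨hG x hx, Submodule.subset_span ⟨x, hx, rfl⟩⟩
  | zero => exact ⟨fun e _ => coeff_zero e, by rw [map_zero]; exact Submodule.zero_mem _⟩
  | add x y _ _ hx hy =>
    refine ⟨fun e he => by rw [coeff_add, hx.1 e he, hy.1 e he, add_zero], ?_⟩
    rw [map_add]; exact Submodule.add_mem _ hx.2 hy.2
  | smul r x _ hx =>
    refine ⟨fun e he => ?_, ?_⟩
    · rw [smul_eq_mul, low_mul hx.1 r e he.le, hx.1 e he, mul_zero]
    · rw [smul_eq_mul, comp_mul hx.1]; exact Submodule.smul_mem _ _ hx.2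

lemma low_of_homogeneous {f : MvPolynomial (Fin n) k} (hf : f.IsHomogeneous 2) : Low f :=
  fun _ he => hf.coeff_eq_zero (by omega)

lemma comp_eq_self {f : MvPolynomial (Fin n) k} {d : ℕ} (hf : f.IsHomogeneous d) :
    homogeneousComponent d f = f := homogeneousComponent_eq_self hf

end general

section combinatorics

/-- A code for the unordered pair `{i, j}`. -/
def cd (i j : Fin 4) : ℕ := if i ≤ j then 4 * i.1 + j.1 else 4 * j.1 + i.1

/-- Some permutations. -/
def T : Fin 9 → Equiv.Perm (Fin 4) :=
  ![Equiv.swap 0 1, Equiv.swap 0 2, Equiv.swap 0 3, Equiv.swap 1 2, Equiv.swap 1 3,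
    Equiv.swap 2 3, Equiv.swap 0 1 * Equiv.swap 2 3, Equiv.swap 0 2 * Equiv.swap 1 3,
    Equiv.swap 0 3 * Equiv.swap 1 2]

/-- The three permutations. -/
def P3 (t : Fin 9 × Fin 9) : Fin 3 → Equiv.Perm (Fin 4) := ![1, T t.1, T t.2]

set_option maxRecDepth 100000 in
lemma comb : ∀ i j k l : Fin 4, cd i j ≠ cd k l → ∃ t : Fin 9 × Fin 9,
    ∀ r s : Fin 3, (r ≠ s → cd (P3 t r i) (P3 t r j) ≠ cd (P3 t s i) (P3 t s j)) ∧
      cd (P3 t r k) (P3 t r l) ≠ cd (P3 t s i) (P3 t s j) := by
  decide +kernel

/-- The exponent of `X_i X_j`. -/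
noncomputable def E (i j : Fin 4) : Fin 4 →₀ ℕ := Finsupp.single i 1 + Finsupp.single j 1

lemma E_cd {i j p q : Fin 4} (h : E i j = E p q) : cd i j = cd p q := by
  have h1 : ∀ x, E i j x = E p q x := fun x => by rw [h]
  have h2 : ∀ x, (if i = x then 1 else 0) + (if j = x then 1 else 0) =
      (if p = x then 1 else 0) + (if q = x then 1 else 0 : ℕ) := by
    intro x
    have := h1 x
    simpa only [E, Finsupp.add_apply, Finsupp.single_apply] using this
  clear h h1
  revert i j p q
  decide +kernel

lemma cd_E {i j p q : Fin 4} (h : cd i j = cd p q) : E i j = E p q := by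
  have h2 : (i = p ∧ j = q) ∨ (i = q ∧ j = p) := by
    revert i j p q
    decide +kernel
  rcases h2 with ⟨rfl, rfl⟩ | ⟨rfl, rfl⟩
  · rfl
  · exact add_comm _ _

lemma exists_E {u : Fin 4 →₀ ℕ} (hu : u.degree = 2) : ∃ i j, u = E i j := by
  have h1 : (Finsupp.toMultiset u).card = 2 := by
    rw [Finsupp.card_toMultiset, ← hu, Finsupp.degree_apply]
    rfl
  obtain ⟨i, j, hij⟩ := Multiset.card_eq_two.1 h1
  refine ⟨i, j, ?_⟩
  rw [E, ← Multiset.toFinsupp_singleton, ← Multiset.toFinsupp_singleton, ← map_add,
    Multiset.singleton_add]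
  have : u = Multiset.toFinsupp (Finsupp.toMultiset u) := by simp
  rw [this, hij]
  rfl

end combinatorics

section main

variable {k : Type*} [Field k]

lemma rename_mono (σ : Equiv.Perm (Fin 4)) (i j : Fin 4) (a : k) :
    rename σ (monomial (E i j) a) = monomial (E (σ i) (σ j)) a := by
  rw [rename_monomial, E, Finsupp.mapDomain_add, Finsupp.mapDomain_single,
    Finsupp.mapDomain_single]
  rfl

/-- A nonzero term or binomial of degree two generates a representation of dimension `≥ 3`. -/
lemma three_le {W : Submodule k (MvPolynomial (Fin 4) k)} [Module.Finite k W]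
    (hW : ∀ σ : Equiv.Perm (Fin 4), ∀ f ∈ W, rename σ f ∈ W) {i j p q : Fin 4} {a b : k}
    (ha : a ≠ 0) (hne : E i j ≠ E p q) (h : monomial (E i j) a + monomial (E p q) b ∈ W) :
    3 ≤ Module.finrank k W := by
  obtain ⟨t, ht⟩ := comb i j p q (fun h => hne (cd_E h))
  let f : Fin 3 → W := fun r => ⟨_, hW (P3 t r) _ h⟩
  have hf : ∀ r, (f r : MvPolynomial (Fin 4) k) =
      monomial (E (P3 t r i) (P3 t r j)) a + monomial (E (P3 t r p) (P3 t r q)) b := by
    intro r
    show rename (P3 t r) _ = _
    rw [map_add, rename_mono, rename_mono]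
  have hcoeff : ∀ r s, coeff (E (P3 t s i) (P3 t s j)) (f r : MvPolynomial (Fin 4) k) =
      if r = s then a else 0 := by
    intro r s
    rw [hf, coeff_add, coeff_monomial, coeff_monomial,
      if_neg (fun h => (ht r s).2 (E_cd h)), add_zero]
    by_cases hrs : r = s
    · subst hrs; simp
    · rw [if_neg hrs, if_neg (fun h => (ht r s).1 hrs (E_cd h))]
  have hli : LinearIndependent k f := by
    rw [Fintype.linearIndependent_iff]
    intro g hg s
    have h1 := congrArg (fun w : W => coeff (E (P3 t s i) (P3 t s j))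
      (w : MvPolynomial (Fin 4) k)) hg
    simp only [AddSubmonoidClass.coe_finsetSum, Submodule.coe_smul, coeff_sum, coeff_smul,
      hcoeff, ZeroMemClass.coe_zero, coeff_zero, smul_eq_mul, mul_ite, mul_zero,
      Finset.sum_ite_eq', Finset.mem_univ, if_true] at h1
    exact (mul_eq_zero.1 h1).resolve_right ha
  have := hli.fintype_card_le_finrank
  simpa using this

/-- `q_1 = (x_1 - x_2)(x_3 - x_4)`. -/
noncomputable def q1 (k : Type*) [Field k] : MvPolynomial (Fin 4) k := (X 0 - X 1) * (X 2 - X 3)

/-- `q_2 = (x_1 - x_3)(x_2 - x_4)`. -/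
noncomputable def q2 (k : Type*) [Field k] : MvPolynomial (Fin 4) k := (X 0 - X 2) * (X 1 - X 3)

/-- The span of `q_1` and `q_2`. -/
noncomputable def QQ (k : Type*) [Field k] : Submodule k (MvPolynomial (Fin 4) k) :=
  Submodule.span k {q1 k, q2 k}

lemma orbit_mem' (a b c d : Fin 4) (hab : a ≠ b) (hac : a ≠ c) (had : a ≠ d) (hbc : b ≠ c)
    (hbd : b ≠ d) (hcd : c ≠ d) :
    ((X a - X b) * (X c - X d) : MvPolynomial (Fin 4) k) ∈ QQ k := by
  have key : ∀ (α β : k) (f : MvPolynomial (Fin 4) k), C α * q1 k + C β * q2 k = f →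
      f ∈ QQ k := by
    rintro α β f rfl
    rw [← smul_eq_C_mul, ← smul_eq_C_mul]
    exact Submodule.add_mem _ (Submodule.smul_mem _ _ (Submodule.subset_span (by simp)))
      (Submodule.smul_mem _ _ (Submodule.subset_span (by simp)))
  have h4 : ∀ x : Fin 4, x = 0 ∨ x = 1 ∨ x = 2 ∨ x = 3 := by decide
  rcases h4 a with rfl | rfl | rfl | rfl <;> rcases h4 b with rfl | rfl | rfl | rfl <;>
    (first | exact absurd rfl hab | skip) <;> rcases h4 c with rfl | rfl | rfl | rfl <;>
    (first | exact absurd rfl hac | exact absurd rfl hbc | skip) <;>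
    rcases h4 d with rfl | rfl | rfl | rfl <;>
    (first | exact absurd rfl had | exact absurd rfl hbd | exact absurd rfl hcd | skip)
  all_goals first
    | exact key 1 0 _ (by simp only [q1, q2, map_zero, map_one]; ring1)
    | exact key (-1) 0 _ (by simp only [q1, q2, map_zero, map_one, map_neg]; ring1)
    | exact key 0 1 _ (by simp only [q1, q2, map_zero, map_one]; ring1)
    | exact key 0 (-1) _ (by simp only [q1, q2, map_zero, map_one, map_neg]; ring1)
    | exact key 1 (-1) _ (by simp only [q1, q2, map_zero, map_one, map_neg]; ring1)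
    | exact key (-1) 1 _ (by simp only [q1, q2, map_zero, map_one, map_neg]; ring1)

lemma orbit_mem (σ : Equiv.Perm (Fin 4)) : rename σ (q1 k) ∈ QQ k := by
  have hinj := σ.injective
  have h : rename σ (q1 k) = (X (σ 0) - X (σ 1)) * (X (σ 2) - X (σ 3)) := by
    simp [q1]
  rw [h]
  refine orbit_mem' _ _ _ _ ?_ ?_ ?_ ?_ ?_ ?_ <;>
    exact fun h => absurd (hinj h) (by decide)

/-- The ideal. -/
noncomputable def II (k : Type*) [Field k] : Ideal (MvPolynomial (Fin 4) k) :=
  principalSymmetric (q1 k)

lemma q1_mem : q1 k ∈ II k := Ideal.subset_span ⟨1, by simp⟩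

lemma q2_mem : q2 k ∈ II k := Ideal.subset_span ⟨Equiv.swap 1 2, by
  have h0 : Equiv.swap (1 : Fin 4) 2 0 = 0 := by decide
  have h1 : Equiv.swap (1 : Fin 4) 2 1 = 2 := by decide
  have h2 : Equiv.swap (1 : Fin 4) 2 2 = 1 := by decide
  have h3 : Equiv.swap (1 : Fin 4) 2 3 = 3 := by decide
  simp only [q1, q2, map_mul, map_sub, rename_X, h0, h1, h2, h3]⟩

lemma q1_hom : (q1 k).IsHomogeneous 2 :=
  ((isHomogeneous_X k 0).sub (isHomogeneous_X k 1)).mul
    ((isHomogeneous_X k 2).sub (isHomogeneous_X k 3))

lemma q2_hom : (q2 k).IsHomogeneous 2 :=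
  ((isHomogeneous_X k 0).sub (isHomogeneous_X k 2)).mul
    ((isHomogeneous_X k 1).sub (isHomogeneous_X k 3))

lemma QQ_le : QQ k ≤ homogeneousSubmodule (Fin 4) k 2 := by
  refine Submodule.span_le.2 ?_
  rintro x (rfl | rfl)
  · exact q1_hom
  · exact q2_hom

lemma II_eq : II k = Ideal.span {q1 k, q2 k} := by
  apply le_antisymm
  · refine Ideal.span_le.2 ?_
    rintro _ ⟨σ, rfl⟩
    have h := orbit_mem (k := k) σ
    rw [QQ, Submodule.mem_span_pair] at h
    obtain ⟨a, b, hab⟩ := h
    show rename σ (q1 k) ∈ _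
    rw [← hab, smul_eq_C_mul, smul_eq_C_mul]
    exact Ideal.add_mem _ (Ideal.mul_mem_left _ _ (Ideal.subset_span (by simp)))
      (Ideal.mul_mem_left _ _ (Ideal.subset_span (by simp)))
  · refine Ideal.span_le.2 ?_
    rintro x (rfl | rfl)
    · exact q1_mem
    · exact q2_mem

lemma II_low {f : MvPolynomial (Fin 4) k} (hf : f ∈ II k) :
    Low f ∧ homogeneousComponent 2 f ∈ QQ k := by
  rw [II_eq] at hf
  have h := span_low (G := {q1 k, q2 k}) (by
    rintro g (rfl | rfl)
    · exact low_of_homogeneous q1_hom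
    · exact low_of_homogeneous q2_hom) hf
  refine ⟨h.1, ?_⟩
  have h2 : homogeneousComponent 2 '' {q1 k, q2 k} = {q1 k, q2 k} := by
    rw [Set.image_pair, comp_eq_self q1_hom, comp_eq_self q2_hom]
  rw [h2] at h
  exact h.2

lemma part_II_le : part (II k) 2 ≤ QQ k := by
  rintro f ⟨hf, hf2⟩
  have := (II_low hf).2
  rwa [comp_eq_self hf2] at this

lemma finrank_part_II : Module.finrank k (part (II k) 2) ≤ 2 := by
  have : Module.Finite k (QQ k) := by
    rw [QQ]; exact FiniteDimensional.span_of_finite k (by simp)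
  refine (Submodule.finrank_mono part_II_le).trans ?_
  classical
  have h := finrank_span_finset_le_card (R := k) ({q1 k, q2 k} : Finset (MvPolynomial (Fin 4) k))
  rw [Finset.coe_pair] at h
  exact h.trans Finset.card_le_two

lemma eval_q1_ne : eval ![1, 0, 1, 0] (q1 k) = 1 := by simp [q1]
lemma eval_q2_ne : eval ![1, 1, 0, 0] (q2 k) = 1 := by simp [q2]

lemma q1_ne : q1 k ≠ 0 := by
  intro h
  have := eval_q1_ne (k := k)
  rw [h, map_zero] at this
  exact zero_ne_one this

lemma finrank_part_II_pos : 1 ≤ Module.finrank k (part (II k) 2) := by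
  have := part_finite (II k) 2
  have : Nontrivial (part (II k) 2) :=
    ⟨⟨⟨q1 k, ⟨q1_mem, q1_hom⟩⟩, 0, fun h => q1_ne (congrArg Subtype.val h)⟩⟩
  exact Module.finrank_pos

lemma part_II_low (d : ℕ) (hd : d < 2) : Module.finrank k (part (II k) d) = 0 := by
  have h : part (II k) d = ⊥ := by
    rw [eq_bot_iff]
    rintro f ⟨hf, hf2⟩
    rw [Submodule.mem_bot]
    ext e
    rw [coeff_zero]
    by_cases he : e.degree = d
    · exact (II_low hf).1 e (by omega)
    · exact IsHomogeneous.coeff_eq_zero hf2 he
  rw [h, finrank_bot]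

/-- There is no `k`-symmetric polynomial in the span of `q_1` and `q_2`. -/
lemma no_sym [CharZero k] {f : MvPolynomial (Fin 4) k} (hf : f ∈ QQ k)
    (h : ∀ σ : Equiv.Perm (Fin 4), ∃ c : k, rename σ f = C c * f) : f = 0 := by
  rw [QQ, Submodule.mem_span_pair] at hf
  obtain ⟨a, b, rfl⟩ := hf
  set f := a • q1 k + b • q2 k with hfdef
  have hev : ∀ v : Fin 4 → k, eval v f = a * ((v 0 - v 1) * (v 2 - v 3)) +
      b * ((v 0 - v 2) * (v 1 - v 3)) := by
    intro v
    simp [hfdef, q1, q2, smul_eq_C_mul]
  obtain ⟨c, hc⟩ := h (Equiv.swap 1 2)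
  obtain ⟨c', hc'⟩ := h (Equiv.swap 0 1)
  have e1 : ∀ v : Fin 4 → k, eval (v ∘ Equiv.swap (1 : Fin 4) 2) f = c * eval v f := by
    intro v
    have := congrArg (eval v) hc
    rwa [eval_rename, map_mul, eval_C] at this
  have e2 : ∀ v : Fin 4 → k, eval (v ∘ Equiv.swap (0 : Fin 4) 1) f = c' * eval v f := by
    intro v
    have := congrArg (eval v) hc'
    rwa [eval_rename, map_mul, eval_C] at this
  have s0 : Equiv.swap (1 : Fin 4) 2 0 = 0 := by decide
  have s1 : Equiv.swap (1 : Fin 4) 2 1 = 2 := by decide
  have s2 : Equiv.swap (1 : Fin 4) 2 2 = 1 := by decide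
  have s3 : Equiv.swap (1 : Fin 4) 2 3 = 3 := by decide
  have t0 : Equiv.swap (0 : Fin 4) 1 0 = 1 := by decide
  have t1 : Equiv.swap (0 : Fin 4) 1 1 = 0 := by decide
  have t2 : Equiv.swap (0 : Fin 4) 1 2 = 2 := by decide
  have t3 : Equiv.swap (0 : Fin 4) 1 3 = 3 := by decide
  have g1 := e1 ![1, 0, 1, 0]
  have g2 := e1 ![1, 1, 0, 0]
  have g3 := e2 ![1, 0, 1, 0]
  have g4 := e2 ![1, 1, 0, 0]
  rw [hev, hev] at g1 g2 g3 g4
  simp only [Function.comp, s0, s1, s2, s3, t0, t1, t2, t3] at g1 g2 g3 g4
  simp at g1 g2 g3 g4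
  -- g1 : b = c * a, g2 : a = c * b, g3 : -a - b = c' * a, g4 : b = c' * b (up to form)
  have hb : b = 0 := by
    by_contra hb
    have hc1 : c' = 1 := mul_right_cancel₀ hb (by rw [one_mul]; exact g4.symm)
    rw [hc1, one_mul] at g3
    have h1 : b = -2 * a := by linear_combination -g3
    have h2 : b * b = a * a := by
      calc b * b = (c * a) * b := by rw [← g1]
        _ = a * (c * b) := by ring
        _ = a * a := by rw [← g2]
    rw [h1] at h2
    have h3 : a * a = 0 := by
      have : (3 : k) * (a * a) = 0 := by linear_combination h2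
      exact (mul_eq_zero.1 this).resolve_left (by norm_num)
    have h4 : a = 0 := mul_self_eq_zero.1 h3
    apply hb
    rw [h1, h4, mul_zero]
  have ha : a = 0 := by rw [g2, hb, mul_zero]
  rw [hfdef, ha, hb, zero_smul, zero_smul, add_zero]

lemma II_homogeneous : IsHomogeneousIdeal (II k) := by
  let _ := gradedAlgebra (σ := Fin 4) (R := k)
  intro f hf d
  have h := Ideal.homogeneous_span (homogeneousSubmodule (Fin 4) k) {q1 k, q2 k} (by
    rintro x (rfl | rfl)
    · exact ⟨2, q1_hom⟩
    · exact ⟨2, q2_hom⟩)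
  rw [II_eq] at hf ⊢
  have h2 := h d hf
  have h3 : ((DirectSum.decompose (homogeneousSubmodule (Fin 4) k) f d :
      homogeneousSubmodule (Fin 4) k d) : MvPolynomial (Fin 4) k) = homogeneousComponent d f :=
    decomposition.decompose'_apply f d
  rwa [h3] at h2

lemma II_symmetric : IsSymmetricIdeal (II k) := by
  intro σ f hf
  rw [II, principalSymmetric] at hf ⊢
  induction hf using Submodule.span_induction with
  | mem x hx =>
    obtain ⟨τ, rfl⟩ := hx
    refine Ideal.subset_span ⟨σ * τ, ?_⟩
    simp only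
    rw [rename_rename]
    rfl
  | zero => rw [map_zero]; exact Submodule.zero_mem _
  | add x y _ _ hx hy => rw [map_add]; exact Submodule.add_mem _ hx hy
  | smul r x _ hx => rw [smul_eq_mul, map_mul]; exact Ideal.mul_mem_left _ _ hx

/-- No minimal generating set of the ideal contains a `k`-symmetric polynomial. -/
lemma no_min [CharZero k] {S : Set (MvPolynomial (Fin 4) k)} (hS : IsMinimalGenerating S (II k))
    {f : MvPolynomial (Fin 4) k} (hf : f ∈ S) : ¬ IsKSymmetric f := by
  rintro ⟨hf0, hsym⟩
  obtain ⟨hS1, hS2, hS3⟩ := hS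
  obtain ⟨d, hd⟩ := hS1 f hf
  have hfI : f ∈ II k := by rw [← hS2]; exact Ideal.subset_span hf
  by_cases hd2 : d = 2
  · subst hd2
    exact hf0 (no_sym (part_II_le ⟨hfI, hd⟩) hsym)
  · have hf2 : homogeneousComponent 2 f = 0 := by
      ext e
      rw [coeff_homogeneousComponent, coeff_zero]
      split_ifs with h
      · exact hd.coeff_eq_zero (by rw [h]; exact fun h' => hd2 h'.symm)
      · rfl
    have hlow : ∀ g ∈ S, Low g := fun g hg =>
      (II_low (by rw [← hS2]; exact Ideal.subset_span hg)).1
    have key : ∀ q : MvPolynomial (Fin 4) k, q.IsHomogeneous 2 → q ∈ II k →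
        q ∈ Ideal.span (S \ {f}) := by
      intro q hq hqI
      rw [← hS2] at hqI
      have h1 := (span_low hlow hqI).2
      rw [comp_eq_self hq] at h1
      have h2 : Submodule.span k (homogeneousComponent 2 '' S) ≤
          (Ideal.span (S \ {f})).restrictScalars k := by
        refine Submodule.span_le.2 ?_
        rintro _ ⟨g, hg, rfl⟩
        by_cases hgf : g = f
        · rw [hgf, hf2]; exact Submodule.zero_mem _
        · obtain ⟨e, he⟩ := hS1 g hg
          by_cases he2 : e = 2
          · subst he2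
            rw [comp_eq_self he]
            exact Ideal.subset_span ⟨hg, hgf⟩
          · have : homogeneousComponent 2 g = 0 := by
              ext u
              rw [coeff_homogeneousComponent, coeff_zero]
              split_ifs with h
              · exact he.coeff_eq_zero (by rw [h]; exact fun h' => he2 h'.symm)
              · rfl
            rw [this]; exact Submodule.zero_mem _
      exact h2 h1
    refine hS3 (S \ {f}) ⟨Set.sdiff_subset, fun h => (h hf).2 rfl⟩ ?_
    apply le_antisymm
    · rw [← hS2]; exact Ideal.span_mono Set.sdiff_subset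
    · rw [II_eq]
      refine Ideal.span_le.2 ?_
      rintro x (rfl | rfl)
      · exact key _ q1_hom q1_mem
      · exact key _ q2_hom q2_mem

/-- `k`-symmetric elements of the ideal are in `𝔪 I`. -/
lemma sym_mem [CharZero k] {f : MvPolynomial (Fin 4) k} (hfI : f ∈ II k) (hsym : IsKSymmetric f) :
    f ∈ Ideal.span (Set.range X) * II k := by
  have h2 : homogeneousComponent 2 f = 0 := by
    refine no_sym (II_low hfI).2 ?_
    intro σ
    obtain ⟨c, hc⟩ := hsym.2 σ
    refine ⟨c, ?_⟩
    rw [rename_homogeneousComponent, hc, homogeneousComponent_C_mul]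
  rw [II_eq, Ideal.mem_span_pair] at hfI
  obtain ⟨a, b, rfl⟩ := hfI
  rw [map_add, comp_mul (low_of_homogeneous q1_hom), comp_mul (low_of_homogeneous q2_hom),
    comp_eq_self q1_hom, comp_eq_self q2_hom] at h2
  have ha : coeff 0 a = 0 := by
    have := congrArg (eval ![1, 0, 1, 0]) h2
    simpa [q1, q2, smul_eq_C_mul] using this
  have hb : coeff 0 b = 0 := by
    have := congrArg (eval ![1, 1, 0, 0]) h2
    simpa [q1, q2, smul_eq_C_mul] using this
  have hm : ∀ r : MvPolynomial (Fin 4) k, coeff 0 r = 0 → r ∈ Ideal.span (Set.range X) := by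
    intro r hr
    rw [← Set.image_univ, mem_ideal_span_X_image]
    intro m hm
    by_contra hcon
    push Not at hcon
    have hm0 : m = 0 := by
      ext i
      exact hcon i (Set.mem_univ i)
    rw [hm0, mem_support_iff] at hm
    exact hm hr
  exact Ideal.add_mem _ (Ideal.mul_mem_mul (hm a ha) q1_mem)
    (Ideal.mul_mem_mul (hm b hb) q2_mem)

lemma eq_zero_of_finrank {J : Ideal (MvPolynomial (Fin 4) k)} {d : ℕ}
    (h : Module.finrank k (part J d) = 0) {f : MvPolynomial (Fin 4) k} (hf : f ∈ part J d) :
    f = 0 := by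
  have := part_finite J d
  have h1 := Submodule.finrank_eq_zero.1 h
  rw [h1] at hf
  exact (Submodule.mem_bot k).1 hf

lemma main_lemma {J : Ideal (MvPolynomial (Fin 4) k)} (hsym : IsSymmetricIdeal J)
    (hhom : IsHomogeneousIdeal J) {B : Set (MvPolynomial (Fin 4) k)}
    (hB : ∀ b ∈ B, IsTermOrBinomial b) (hJB : J = Ideal.span B) :
    ∃ d, hilbert J d ≠ hilbert (II k) d := by
  by_contra hcon
  push Not at hcon
  have hfin := fun d => finrank_part_eq (hcon d)
  have h0 : Module.finrank k (part J 0) = 0 := by rw [hfin, part_II_low 0 (by norm_num)]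
  have h1 : Module.finrank k (part J 1) = 0 := by rw [hfin, part_II_low 1 (by norm_num)]
  have hpart : ∀ f ∈ J, ∀ d, homogeneousComponent d f ∈ part J d := fun f hf d =>
    ⟨hhom f hf d, homogeneousComponent_isHomogeneous d f⟩
  have hlow : ∀ f ∈ J, Low f := by
    intro f hf e he
    have h2 : homogeneousComponent e.degree f = 0 := by
      have : e.degree = 0 ∨ e.degree = 1 := by omega
      rcases this with h | h
      · rw [h]; exact eq_zero_of_finrank h0 (hpart f hf 0)
      · rw [h]; exact eq_zero_of_finrank h1 (hpart f hf 1)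
    have h3 := congrArg (coeff e) h2
    rwa [coeff_homogeneousComponent, if_pos rfl, coeff_zero] at h3
  have hB2 : ∃ b ∈ B, homogeneousComponent 2 b ≠ 0 := by
    by_contra hcon2
    push Not at hcon2
    have h3 := finrank_part_II_pos (k := k)
    rw [← hfin] at h3
    have h4 : part J 2 = ⊥ := by
      rw [eq_bot_iff]
      rintro f ⟨hf, hf2⟩
      have hf' : f ∈ Ideal.span B := by rw [← hJB]; exact hf
      have h5 := (span_low (fun g hg => hlow g (by rw [hJB]; exact Ideal.subset_span hg)) hf').2
      rw [comp_eq_self hf2] at h5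
      have h6 : Submodule.span k (homogeneousComponent 2 '' B) ≤ ⊥ := by
        refine Submodule.span_le.2 ?_
        rintro _ ⟨g, hg, rfl⟩
        rw [hcon2 g hg]
        exact Submodule.zero_mem _
      exact h6 h5
    rw [h4, finrank_bot] at h3
    omega
  obtain ⟨b, hb, hb2⟩ := hB2
  have hbJ : b ∈ J := by rw [hJB]; exact Ideal.subset_span hb
  have hW : ∀ σ : Equiv.Perm (Fin 4), ∀ f ∈ part J 2, rename σ f ∈ part J 2 := by
    rintro σ f ⟨hf, hf2⟩
    exact ⟨hsym σ f hf, IsHomogeneous.rename_isHomogeneous hf2⟩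
  have := part_finite J 2
  have hthree : 3 ≤ Module.finrank k (part J 2) := by
    have hmem := hpart b hbJ 2
    obtain ⟨u, v, α, β, huv, hα, rfl⟩ := hB b hb
    rw [map_add] at hmem hb2
    have hc : ∀ (w : Fin 4 →₀ ℕ) (γ : k), homogeneousComponent 2 (monomial w γ) =
        if w.degree = 2 then monomial w γ else 0 := by
      intro w γ
      split_ifs with h
      · exact comp_eq_self (isHomogeneous_monomial γ h)
      · ext e
        rw [coeff_homogeneousComponent, coeff_zero, coeff_monomial]
        split_ifs with h1 h2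
        · exact absurd (by rw [h2]; exact h1) h
        · rfl
        · rfl
    have hother : ∀ i j : Fin 4, ∃ p q : Fin 4, E i j ≠ E p q := by
      intro i j
      have h5 : ∃ p q : Fin 4, cd i j ≠ cd p q := by
        revert i j
        decide +kernel
      obtain ⟨p, q, hpq⟩ := h5
      exact ⟨p, q, fun h => hpq (E_cd h)⟩
    rw [hc, hc] at hmem hb2
    by_cases hu : u.degree = 2
    · rw [if_pos hu] at hmem hb2
      obtain ⟨i, j, rfl⟩ := exists_E hu
      by_cases hv : v.degree = 2
      · rw [if_pos hv] at hmem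
        obtain ⟨p, q, rfl⟩ := exists_E hv
        exact three_le hW hα huv hmem
      · rw [if_neg hv] at hmem
        obtain ⟨p, q, hpq⟩ := hother i j
        refine three_le (b := 0) hW hα hpq ?_
        rw [monomial_zero]
        exact hmem
    · rw [if_neg hu] at hmem hb2
      by_cases hv : v.degree = 2
      · rw [if_pos hv] at hmem hb2
        rw [zero_add] at hmem hb2
        obtain ⟨p, q, rfl⟩ := exists_E hv
        obtain ⟨i, j, hij⟩ := hother p q
        refine three_le (a := β) (b := 0) hW ?_ hij ?_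
        · rintro rfl
          exact hb2 (monomial_zero)
        · rw [monomial_zero, add_zero]
          exact hmem
      · rw [if_neg hv] at hb2
        exact absurd (add_zero _) hb2
  have htwo := finrank_part_II (k := k)
  rw [hfin] at hthree
  omega

end main

/-- **The answer is no for `n = 4`.**  Over every field `k` of characteristic zero, the principal
symmetric ideal `I` of `k[x_1, x_2, x_3, x_4]` generated by the orbit of `(x_1 - x_2)(x_3 - x_4)` is
homogeneous and symmetric, no minimal generating set of it contains a `k`-symmetric polynomial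
(moreover all `k`-symmetric elements of `I` are in `𝔪 I`), and the Hilbert function of `I` differs
from that of every symmetric homogeneous ideal generated by terms and binomials. -/
theorem result (k : Type*) [Field k] [CharZero k] :
    ∃ I : Ideal (MvPolynomial (Fin 4) k),
      I = principalSymmetric ((X 0 - X 1) * (X 2 - X 3)) ∧
      IsSymmetricIdeal I ∧ IsHomogeneousIdeal I ∧
      (∀ S : Set (MvPolynomial (Fin 4) k), IsMinimalGenerating S I → ∀ f ∈ S, ¬ IsKSymmetric f) ∧
      (∀ f ∈ I, IsKSymmetric f → f ∈ Ideal.span (Set.range X) * I) ∧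
      ∀ J : Ideal (MvPolynomial (Fin 4) k), IsSymmetricIdeal J → IsHomogeneousIdeal J →
        (∃ B : Set (MvPolynomial (Fin 4) k), (∀ b ∈ B, IsTermOrBinomial b) ∧ J = Ideal.span B) →
        ∃ d, hilbert J d ≠ hilbert I d :=
  ⟨II k, rfl, II_symmetric, II_homogeneous, fun _ hS _ hf => no_min hS hf,
    fun _ hf hs => sym_mem hf hs,
    fun _ h1 h2 ⟨_, hB, hJB⟩ => main_lemma h1 h2 hB hJB⟩

end Pool.Agent.Results.MP_f9b6b5_al.FourVariables
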